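import Pool.Agent.Strip051.Box.C2
import Pool.Agent.Strip051.Box.S30
import Pool.Agent.Strip051.LB.Fc.F2

/-! # LINE tight chart ChB00U_pp_112 -/

namespace Pool.Agent.Strip051.LB.ChB00U_pp_112

open Pool.Agent.Strip051.Box Pool.Agent.Strip051.Box2

open Pool.Agent.Strip051.LB.Fc Pool.Agent.Strip051.LB.Fc.F2 Pool.Agent.Strip051.LB.Fn Pool.Agent.Strip051.LB.Fn.F2

/-- coordinates of a point of the box -/
def In (b : Bx) (E : Pt) (x1 x2 : ℝ) : Prop :=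
  (S : ℝ) * x1 = ((b.p1 : ℝ) - b.n1) + b.q1 * E.e1 ∧ (S : ℝ) * x2 = ((b.p2 : ℝ) - b.n2) + b.q2 * E.e2

variable {b : Bx} {E : Pt} {x1 x2 : ℝ}

def t0 (b : Bx) : TM := X1 b
noncomputable def v0 (x1 _x2 : ℝ) : ℝ := x1
theorem h0 (h : In b E x1 x2) : Enc S E (t0 b) (v0 x1 x2) := enc_X1 h.1

def t1 (b : Bx) : TM := X2 b
noncomputable def v1 (_x1 x2 : ℝ) : ℝ := x2
theorem h1 (h : In b E x1 x2) : Enc S E (t1 b) (v1 x1 x2) := enc_X2 h.2

def t2 (_b : Bx) : TM := tconst 1859775393 0 1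
noncomputable def v2 (_x1 _x2 : ℝ) : ℝ := Real.sqrt ((3 : ℕ) : ℝ)
theorem h2 (_h : In b E x1 x2) : Enc S E (t2 b) (v2 x1 x2) := enc_sqrtn E (by decide) (by decide)

def t3 (b : Bx) : TM := tscale 1 2 (t2 b)
noncomputable def v3 (x1 x2 : ℝ) : ℝ := ((1 : ℕ) : ℝ) / ((2 : ℕ) : ℝ) * v2 x1 x2
theorem h3 (h : In b E x1 x2) : Enc S E (t3 b) (v3 x1 x2) := enc_scale 1 (by norm_num) (h2 h)

def t4 (b : Bx) : TM := tsq S (t0 b)
noncomputable def v4 (x1 x2 : ℝ) : ℝ := (v0 x1 x2) ^ 2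
theorem h4 (h : In b E x1 x2) : Enc S E (t4 b) (v4 x1 x2) := enc_sq hS (h0 h)

def t5 (_b : Bx) : TM := tconst (Nat.mul 1 S) 0 0
noncomputable def v5 (_x1 _x2 : ℝ) : ℝ := ((1 : ℕ) : ℝ)
theorem h5 (_h : In b E x1 x2) : Enc S E (t5 b) (v5 x1 x2) := enc_nc E 1

def t6 (b : Bx) : TM := tsub (t5 b) (t4 b)
noncomputable def v6 (x1 x2 : ℝ) : ℝ := v5 x1 x2 - v4 x1 x2
theorem h6 (h : In b E x1 x2) : Enc S E (t6 b) (v6 x1 x2) := enc_sub (h5 h) (h4 h)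

def t7 (b : Bx) : TM := tsqrt S (t6 b)
noncomputable def v7 (x1 x2 : ℝ) : ℝ := Real.sqrt (v6 x1 x2)
theorem h7 (h : In b E x1 x2) : Enc S E (t7 b) (v7 x1 x2) := enc_sqrt hS (h6 h)

def t9 (_b : Bx) : TM := tconst (Nat.div (Nat.mul 1 S) 2) 0 1
noncomputable def v9 (_x1 _x2 : ℝ) : ℝ := ((1 : ℕ) : ℝ) / ((2 : ℕ) : ℝ)
theorem h9 (_h : In b E x1 x2) : Enc S E (t9 b) (v9 x1 x2) := enc_rat E 1 (by norm_num)

def t11 (b : Bx) : TM := tscale 1 2 (t7 b)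
noncomputable def v11 (x1 x2 : ℝ) : ℝ := ((1 : ℕ) : ℝ) / ((2 : ℕ) : ℝ) * v7 x1 x2
theorem h11 (h : In b E x1 x2) : Enc S E (t11 b) (v11 x1 x2) := enc_scale 1 (by norm_num) (h7 h)

def t13 (b : Bx) : TM := tmul S (t0 b) (t3 b)
noncomputable def v13 (x1 x2 : ℝ) : ℝ := v0 x1 x2 * v3 x1 x2
theorem h13 (h : In b E x1 x2) : Enc S E (t13 b) (v13 x1 x2) := enc_mul hS (h0 h) (h3 h)

def t15 (b : Bx) : TM := tscale 1 2 (t0 b)
noncomputable def v15 (x1 x2 : ℝ) : ℝ := ((1 : ℕ) : ℝ) / ((2 : ℕ) : ℝ) * v0 x1 x2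
theorem h15 (h : In b E x1 x2) : Enc S E (t15 b) (v15 x1 x2) := enc_scale 1 (by norm_num) (h0 h)

def t17 (b : Bx) : TM := tmul S (t7 b) (t3 b)
noncomputable def v17 (x1 x2 : ℝ) : ℝ := v7 x1 x2 * v3 x1 x2
theorem h17 (h : In b E x1 x2) : Enc S E (t17 b) (v17 x1 x2) := enc_mul hS (h7 h) (h3 h)

def t19 (b : Bx) : TM := tsub (t11 b) (t13 b)
noncomputable def v19 (x1 x2 : ℝ) : ℝ := v11 x1 x2 - v13 x1 x2
theorem h19 (h : In b E x1 x2) : Enc S E (t19 b) (v19 x1 x2) := enc_sub (h11 h) (h13 h)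

def t20 (b : Bx) : TM := tadd (t15 b) (t17 b)
noncomputable def v20 (x1 x2 : ℝ) : ℝ := v15 x1 x2 + v17 x1 x2
theorem h20 (h : In b E x1 x2) : Enc S E (t20 b) (v20 x1 x2) := enc_add (h15 h) (h17 h)

def t21 (b : Bx) : TM := tsub (t1 b) (t19 b)
noncomputable def v21 (x1 x2 : ℝ) : ℝ := v1 x1 x2 - v19 x1 x2
theorem h21 (h : In b E x1 x2) : Enc S E (t21 b) (v21 x1 x2) := enc_sub (h1 h) (h19 h)

def t22 (b : Bx) : TM := tsq S (t1 b)
noncomputable def v22 (x1 x2 : ℝ) : ℝ := (v1 x1 x2) ^ 2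
theorem h22 (h : In b E x1 x2) : Enc S E (t22 b) (v22 x1 x2) := enc_sq hS (h1 h)

def t23 (b : Bx) : TM := tsub (t5 b) (t22 b)
noncomputable def v23 (x1 x2 : ℝ) : ℝ := v5 x1 x2 - v22 x1 x2
theorem h23 (h : In b E x1 x2) : Enc S E (t23 b) (v23 x1 x2) := enc_sub (h5 h) (h22 h)

def t24 (b : Bx) : TM := tsqrt S (t23 b)
noncomputable def v24 (x1 x2 : ℝ) : ℝ := Real.sqrt (v23 x1 x2)
theorem h24 (h : In b E x1 x2) : Enc S E (t24 b) (v24 x1 x2) := enc_sqrt hS (h23 h)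

def t25 (b : Bx) : TM := tsub (t1 b) (t7 b)
noncomputable def v25 (x1 x2 : ℝ) : ℝ := v1 x1 x2 - v7 x1 x2
theorem h25 (h : In b E x1 x2) : Enc S E (t25 b) (v25 x1 x2) := enc_sub (h1 h) (h7 h)

def t26 (b : Bx) : TM := tsub (t24 b) (t0 b)
noncomputable def v26 (x1 x2 : ℝ) : ℝ := v24 x1 x2 - v0 x1 x2
theorem h26 (h : In b E x1 x2) : Enc S E (t26 b) (v26 x1 x2) := enc_sub (h24 h) (h0 h)

def t27 (b : Bx) : TM := tsub (t19 b) (t1 b)
noncomputable def v27 (x1 x2 : ℝ) : ℝ := v19 x1 x2 - v1 x1 x2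
theorem h27 (h : In b E x1 x2) : Enc S E (t27 b) (v27 x1 x2) := enc_sub (h19 h) (h1 h)

def t28 (b : Bx) : TM := tnat 2 (t7 b)
noncomputable def v28 (x1 x2 : ℝ) : ℝ := ((2 : ℕ) : ℝ) * v7 x1 x2
theorem h28 (h : In b E x1 x2) : Enc S E (t28 b) (v28 x1 x2) := enc_nat 2 (h7 h)

def t29 (b : Bx) : TM := tadd (t5 b) (t28 b)
noncomputable def v29 (x1 x2 : ℝ) : ℝ := v5 x1 x2 + v28 x1 x2
theorem h29 (h : In b E x1 x2) : Enc S E (t29 b) (v29 x1 x2) := enc_add (h5 h) (h28 h)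

def t30 (b : Bx) : TM := tmul S (t2 b) (t0 b)
noncomputable def v30 (x1 x2 : ℝ) : ℝ := v2 x1 x2 * v0 x1 x2
theorem h30 (h : In b E x1 x2) : Enc S E (t30 b) (v30 x1 x2) := enc_mul hS (h2 h) (h0 h)

def t31 (b : Bx) : TM := tsub (t30 b) (t7 b)
noncomputable def v31 (x1 x2 : ℝ) : ℝ := v30 x1 x2 - v7 x1 x2
theorem h31 (h : In b E x1 x2) : Enc S E (t31 b) (v31 x1 x2) := enc_sub (h30 h) (h7 h)

def t32 (b : Bx) : TM := tmul S (t29 b) (t31 b)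
noncomputable def v32 (x1 x2 : ℝ) : ℝ := v29 x1 x2 * v31 x1 x2
theorem h32 (h : In b E x1 x2) : Enc S E (t32 b) (v32 x1 x2) := enc_mul hS (h29 h) (h31 h)

def t33 (b : Bx) : TM := tadd (t5 b) (t30 b)
noncomputable def v33 (x1 x2 : ℝ) : ℝ := v5 x1 x2 + v30 x1 x2
theorem h33 (h : In b E x1 x2) : Enc S E (t33 b) (v33 x1 x2) := enc_add (h5 h) (h30 h)

def t34 (b : Bx) : TM := tsub (t33 b) (t7 b)
noncomputable def v34 (x1 x2 : ℝ) : ℝ := v33 x1 x2 - v7 x1 x2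
theorem h34 (h : In b E x1 x2) : Enc S E (t34 b) (v34 x1 x2) := enc_sub (h33 h) (h7 h)

def t35 (b : Bx) : TM := tnat 2 (t34 b)
noncomputable def v35 (x1 x2 : ℝ) : ℝ := ((2 : ℕ) : ℝ) * v34 x1 x2
theorem h35 (h : In b E x1 x2) : Enc S E (t35 b) (v35 x1 x2) := enc_nat 2 (h34 h)

def t36 (b : Bx) : TM := tinv S (t35 b)
noncomputable def v36 (x1 x2 : ℝ) : ℝ := (v35 x1 x2)⁻¹
theorem h36 (h : In b E x1 x2) : Enc S E (t36 b) (v36 x1 x2) := enc_inv hS (h35 h)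

def t37 (b : Bx) : TM := tmul S (t32 b) (t36 b)
noncomputable def v37 (x1 x2 : ℝ) : ℝ := v32 x1 x2 * v36 x1 x2
theorem h37 (h : In b E x1 x2) : Enc S E (t37 b) (v37 x1 x2) := enc_mul hS (h32 h) (h36 h)

def t38 (b : Bx) : TM := tsq S (t25 b)
noncomputable def v38 (x1 x2 : ℝ) : ℝ := (v25 x1 x2) ^ 2
theorem h38 (h : In b E x1 x2) : Enc S E (t38 b) (v38 x1 x2) := enc_sq hS (h25 h)

def t39 (b : Bx) : TM := tsq S (t26 b)
noncomputable def v39 (x1 x2 : ℝ) : ℝ := (v26 x1 x2) ^ 2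
theorem h39 (h : In b E x1 x2) : Enc S E (t39 b) (v39 x1 x2) := enc_sq hS (h26 h)

def t40 (b : Bx) : TM := tadd (t38 b) (t39 b)
noncomputable def v40 (x1 x2 : ℝ) : ℝ := v38 x1 x2 + v39 x1 x2
theorem h40 (h : In b E x1 x2) : Enc S E (t40 b) (v40 x1 x2) := enc_add (h38 h) (h39 h)

def t44 (b : Bx) : TM := tsub (t19 b) (t7 b)
noncomputable def v44 (x1 x2 : ℝ) : ℝ := v19 x1 x2 - v7 x1 x2
theorem h44 (h : In b E x1 x2) : Enc S E (t44 b) (v44 x1 x2) := enc_sub (h19 h) (h7 h)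

def t46 (b : Bx) : TM := tadd (t25 b) (t44 b)
noncomputable def v46 (x1 x2 : ℝ) : ℝ := v25 x1 x2 + v44 x1 x2
theorem h46 (h : In b E x1 x2) : Enc S E (t46 b) (v46 x1 x2) := enc_add (h25 h) (h44 h)

def t49 (b : Bx) : TM := tadd (t1 b) (t19 b)
noncomputable def v49 (x1 x2 : ℝ) : ℝ := v1 x1 x2 + v19 x1 x2
theorem h49 (h : In b E x1 x2) : Enc S E (t49 b) (v49 x1 x2) := enc_add (h1 h) (h19 h)

def t52 (b : Bx) : TM := tadd (t24 b) (t20 b)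
noncomputable def v52 (x1 x2 : ℝ) : ℝ := v24 x1 x2 + v20 x1 x2
theorem h52 (h : In b E x1 x2) : Enc S E (t52 b) (v52 x1 x2) := enc_add (h24 h) (h20 h)

def t53 (b : Bx) : TM := tinv S (t52 b)
noncomputable def v53 (x1 x2 : ℝ) : ℝ := (v52 x1 x2)⁻¹
theorem h53 (h : In b E x1 x2) : Enc S E (t53 b) (v53 x1 x2) := enc_inv hS (h52 h)

def t54 (b : Bx) : TM := tmul S (t49 b) (t53 b)
noncomputable def v54 (x1 x2 : ℝ) : ℝ := v49 x1 x2 * v53 x1 x2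
theorem h54 (h : In b E x1 x2) : Enc S E (t54 b) (v54 x1 x2) := enc_mul hS (h49 h) (h53 h)

def t55 (b : Bx) : TM := tsub (t20 b) (t0 b)
noncomputable def v55 (x1 x2 : ℝ) : ℝ := v20 x1 x2 - v0 x1 x2
theorem h55 (h : In b E x1 x2) : Enc S E (t55 b) (v55 x1 x2) := enc_sub (h20 h) (h0 h)

def t57 (b : Bx) : TM := tadd (t26 b) (t55 b)
noncomputable def v57 (x1 x2 : ℝ) : ℝ := v26 x1 x2 + v55 x1 x2
theorem h57 (h : In b E x1 x2) : Enc S E (t57 b) (v57 x1 x2) := enc_add (h26 h) (h55 h)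

def t58 (b : Bx) : TM := tmul S (t54 b) (t57 b)
noncomputable def v58 (x1 x2 : ℝ) : ℝ := v54 x1 x2 * v57 x1 x2
theorem h58 (h : In b E x1 x2) : Enc S E (t58 b) (v58 x1 x2) := enc_mul hS (h54 h) (h57 h)

def t60 (b : Bx) : TM := tsub (t58 b) (t46 b)
noncomputable def v60 (x1 x2 : ℝ) : ℝ := v58 x1 x2 - v46 x1 x2
theorem h60 (h : In b E x1 x2) : Enc S E (t60 b) (v60 x1 x2) := enc_sub (h58 h) (h46 h)

def t62 (b : Bx) : TM := tsub (t7 b) (t1 b)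
noncomputable def v62 (x1 x2 : ℝ) : ℝ := v7 x1 x2 - v1 x1 x2
theorem h62 (h : In b E x1 x2) : Enc S E (t62 b) (v62 x1 x2) := enc_sub (h7 h) (h1 h)

def t63 (b : Bx) : TM := tsub (t5 b) (t39 b)
noncomputable def v63 (x1 x2 : ℝ) : ℝ := v5 x1 x2 - v39 x1 x2
theorem h63 (h : In b E x1 x2) : Enc S E (t63 b) (v63 x1 x2) := enc_sub (h5 h) (h39 h)

def t64 (b : Bx) : TM := tsqrt S (t63 b)
noncomputable def v64 (x1 x2 : ℝ) : ℝ := Real.sqrt (v63 x1 x2)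
theorem h64 (h : In b E x1 x2) : Enc S E (t64 b) (v64 x1 x2) := enc_sqrt hS (h63 h)

def t65 (b : Bx) : TM := tadd (t13 b) (t11 b)
noncomputable def v65 (x1 x2 : ℝ) : ℝ := v13 x1 x2 + v11 x1 x2
theorem h65 (h : In b E x1 x2) : Enc S E (t65 b) (v65 x1 x2) := enc_add (h13 h) (h11 h)

def t66 (b : Bx) : TM := tnat 2 (t64 b)
noncomputable def v66 (x1 x2 : ℝ) : ℝ := ((2 : ℕ) : ℝ) * v64 x1 x2
theorem h66 (h : In b E x1 x2) : Enc S E (t66 b) (v66 x1 x2) := enc_nat 2 (h64 h)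

def t67 (b : Bx) : TM := tadd (t5 b) (t66 b)
noncomputable def v67 (x1 x2 : ℝ) : ℝ := v5 x1 x2 + v66 x1 x2
theorem h67 (h : In b E x1 x2) : Enc S E (t67 b) (v67 x1 x2) := enc_add (h5 h) (h66 h)

def t68 (b : Bx) : TM := tmul S (t2 b) (t26 b)
noncomputable def v68 (x1 x2 : ℝ) : ℝ := v2 x1 x2 * v26 x1 x2
theorem h68 (h : In b E x1 x2) : Enc S E (t68 b) (v68 x1 x2) := enc_mul hS (h2 h) (h26 h)

def t69 (b : Bx) : TM := tsub (t68 b) (t64 b)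
noncomputable def v69 (x1 x2 : ℝ) : ℝ := v68 x1 x2 - v64 x1 x2
theorem h69 (h : In b E x1 x2) : Enc S E (t69 b) (v69 x1 x2) := enc_sub (h68 h) (h64 h)

def t70 (b : Bx) : TM := tmul S (t67 b) (t69 b)
noncomputable def v70 (x1 x2 : ℝ) : ℝ := v67 x1 x2 * v69 x1 x2
theorem h70 (h : In b E x1 x2) : Enc S E (t70 b) (v70 x1 x2) := enc_mul hS (h67 h) (h69 h)

def t71 (b : Bx) : TM := tadd (t5 b) (t68 b)
noncomputable def v71 (x1 x2 : ℝ) : ℝ := v5 x1 x2 + v68 x1 x2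
theorem h71 (h : In b E x1 x2) : Enc S E (t71 b) (v71 x1 x2) := enc_add (h5 h) (h68 h)

def t72 (b : Bx) : TM := tsub (t71 b) (t64 b)
noncomputable def v72 (x1 x2 : ℝ) : ℝ := v71 x1 x2 - v64 x1 x2
theorem h72 (h : In b E x1 x2) : Enc S E (t72 b) (v72 x1 x2) := enc_sub (h71 h) (h64 h)

def t73 (b : Bx) : TM := tnat 2 (t72 b)
noncomputable def v73 (x1 x2 : ℝ) : ℝ := ((2 : ℕ) : ℝ) * v72 x1 x2
theorem h73 (h : In b E x1 x2) : Enc S E (t73 b) (v73 x1 x2) := enc_nat 2 (h72 h)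

def t74 (b : Bx) : TM := tinv S (t73 b)
noncomputable def v74 (x1 x2 : ℝ) : ℝ := (v73 x1 x2)⁻¹
theorem h74 (h : In b E x1 x2) : Enc S E (t74 b) (v74 x1 x2) := enc_inv hS (h73 h)

def t75 (b : Bx) : TM := tmul S (t70 b) (t74 b)
noncomputable def v75 (x1 x2 : ℝ) : ℝ := v70 x1 x2 * v74 x1 x2
theorem h75 (h : In b E x1 x2) : Enc S E (t75 b) (v75 x1 x2) := enc_mul hS (h70 h) (h74 h)

def t78 (b : Bx) : TM := tadd (t64 b) (t65 b)
noncomputable def v78 (x1 x2 : ℝ) : ℝ := v64 x1 x2 + v65 x1 x2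
theorem h78 (h : In b E x1 x2) : Enc S E (t78 b) (v78 x1 x2) := enc_add (h64 h) (h65 h)

def t79 (b : Bx) : TM := tinv S (t78 b)
noncomputable def v79 (x1 x2 : ℝ) : ℝ := (v78 x1 x2)⁻¹
theorem h79 (h : In b E x1 x2) : Enc S E (t79 b) (v79 x1 x2) := enc_inv hS (h78 h)

def t80 (b : Bx) : TM := tmul S (t58 b) (t79 b)
noncomputable def v80 (x1 x2 : ℝ) : ℝ := v58 x1 x2 * v79 x1 x2
theorem h80 (h : In b E x1 x2) : Enc S E (t80 b) (v80 x1 x2) := enc_mul hS (h58 h) (h79 h)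

def t82 (b : Bx) : TM := tnat 2 (t65 b)
noncomputable def v82 (x1 x2 : ℝ) : ℝ := ((2 : ℕ) : ℝ) * v65 x1 x2
theorem h82 (h : In b E x1 x2) : Enc S E (t82 b) (v82 x1 x2) := enc_nat 2 (h65 h)

def t83 (b : Bx) : TM := tnat 2 (t80 b)
noncomputable def v83 (x1 x2 : ℝ) : ℝ := ((2 : ℕ) : ℝ) * v80 x1 x2
theorem h83 (h : In b E x1 x2) : Enc S E (t83 b) (v83 x1 x2) := enc_nat 2 (h80 h)

def t85 (b : Bx) : TM := tadd (t5 b) (t82 b)
noncomputable def v85 (x1 x2 : ℝ) : ℝ := v5 x1 x2 + v82 x1 x2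
theorem h85 (h : In b E x1 x2) : Enc S E (t85 b) (v85 x1 x2) := enc_add (h5 h) (h82 h)

def t86 (b : Bx) : TM := tmul S (t2 b) (t55 b)
noncomputable def v86 (x1 x2 : ℝ) : ℝ := v2 x1 x2 * v55 x1 x2
theorem h86 (h : In b E x1 x2) : Enc S E (t86 b) (v86 x1 x2) := enc_mul hS (h2 h) (h55 h)

def t87 (b : Bx) : TM := tmul S (t2 b) (t54 b)
noncomputable def v87 (x1 x2 : ℝ) : ℝ := v2 x1 x2 * v54 x1 x2
theorem h87 (h : In b E x1 x2) : Enc S E (t87 b) (v87 x1 x2) := enc_mul hS (h2 h) (h54 h)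

def t88 (b : Bx) : TM := tsub (t86 b) (t65 b)
noncomputable def v88 (x1 x2 : ℝ) : ℝ := v86 x1 x2 - v65 x1 x2
theorem h88 (h : In b E x1 x2) : Enc S E (t88 b) (v88 x1 x2) := enc_sub (h86 h) (h65 h)

def t89 (b : Bx) : TM := tadd (t87 b) (t80 b)
noncomputable def v89 (x1 x2 : ℝ) : ℝ := v87 x1 x2 + v80 x1 x2
theorem h89 (h : In b E x1 x2) : Enc S E (t89 b) (v89 x1 x2) := enc_add (h87 h) (h80 h)

def t90 (b : Bx) : TM := tmul S (t85 b) (t88 b)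
noncomputable def v90 (x1 x2 : ℝ) : ℝ := v85 x1 x2 * v88 x1 x2
theorem h90 (h : In b E x1 x2) : Enc S E (t90 b) (v90 x1 x2) := enc_mul hS (h85 h) (h88 h)

def t91 (b : Bx) : TM := tmul S (t83 b) (t69 b)
noncomputable def v91 (x1 x2 : ℝ) : ℝ := v83 x1 x2 * v69 x1 x2
theorem h91 (h : In b E x1 x2) : Enc S E (t91 b) (v91 x1 x2) := enc_mul hS (h83 h) (h69 h)

def t93 (b : Bx) : TM := tmul S (t85 b) (t89 b)
noncomputable def v93 (x1 x2 : ℝ) : ℝ := v85 x1 x2 * v89 x1 x2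
theorem h93 (h : In b E x1 x2) : Enc S E (t93 b) (v93 x1 x2) := enc_mul hS (h85 h) (h89 h)

def t94 (b : Bx) : TM := tsub (t93 b) (t91 b)
noncomputable def v94 (x1 x2 : ℝ) : ℝ := v93 x1 x2 - v91 x1 x2
theorem h94 (h : In b E x1 x2) : Enc S E (t94 b) (v94 x1 x2) := enc_sub (h93 h) (h91 h)

def t95 (b : Bx) : TM := tadd (t5 b) (t86 b)
noncomputable def v95 (x1 x2 : ℝ) : ℝ := v5 x1 x2 + v86 x1 x2
theorem h95 (h : In b E x1 x2) : Enc S E (t95 b) (v95 x1 x2) := enc_add (h5 h) (h86 h)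

def t96 (b : Bx) : TM := tsub (t95 b) (t65 b)
noncomputable def v96 (x1 x2 : ℝ) : ℝ := v95 x1 x2 - v65 x1 x2
theorem h96 (h : In b E x1 x2) : Enc S E (t96 b) (v96 x1 x2) := enc_sub (h95 h) (h65 h)

def t97 (b : Bx) : TM := tnat 2 (t96 b)
noncomputable def v97 (x1 x2 : ℝ) : ℝ := ((2 : ℕ) : ℝ) * v96 x1 x2
theorem h97 (h : In b E x1 x2) : Enc S E (t97 b) (v97 x1 x2) := enc_nat 2 (h96 h)

def t98 (b : Bx) : TM := tnat 2 (t89 b)
noncomputable def v98 (x1 x2 : ℝ) : ℝ := ((2 : ℕ) : ℝ) * v89 x1 x2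
theorem h98 (h : In b E x1 x2) : Enc S E (t98 b) (v98 x1 x2) := enc_nat 2 (h89 h)

def t99 (b : Bx) : TM := tinv S (t97 b)
noncomputable def v99 (x1 x2 : ℝ) : ℝ := (v97 x1 x2)⁻¹
theorem h99 (h : In b E x1 x2) : Enc S E (t99 b) (v99 x1 x2) := enc_inv hS (h97 h)

def t100 (b : Bx) : TM := tmul S (t74 b) (t99 b)
noncomputable def v100 (x1 x2 : ℝ) : ℝ := v74 x1 x2 * v99 x1 x2
theorem h100 (h : In b E x1 x2) : Enc S E (t100 b) (v100 x1 x2) := enc_mul hS (h74 h) (h99 h)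

def t101 (b : Bx) : TM := tmul S (t98 b) (t100 b)
noncomputable def v101 (x1 x2 : ℝ) : ℝ := v98 x1 x2 * v100 x1 x2
theorem h101 (h : In b E x1 x2) : Enc S E (t101 b) (v101 x1 x2) := enc_mul hS (h98 h) (h100 h)

def t104 (b : Bx) : TM := tmul S (t94 b) (t74 b)
noncomputable def v104 (x1 x2 : ℝ) : ℝ := v94 x1 x2 * v74 x1 x2
theorem h104 (h : In b E x1 x2) : Enc S E (t104 b) (v104 x1 x2) := enc_mul hS (h94 h) (h74 h)

def t105 (b : Bx) : TM := tmul S (t90 b) (t101 b)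
noncomputable def v105 (x1 x2 : ℝ) : ℝ := v90 x1 x2 * v101 x1 x2
theorem h105 (h : In b E x1 x2) : Enc S E (t105 b) (v105 x1 x2) := enc_mul hS (h90 h) (h101 h)

def t107 (b : Bx) : TM := tsub (t104 b) (t105 b)
noncomputable def v107 (x1 x2 : ℝ) : ℝ := v104 x1 x2 - v105 x1 x2
theorem h107 (h : In b E x1 x2) : Enc S E (t107 b) (v107 x1 x2) := enc_sub (h104 h) (h105 h)

def t108 (b : Bx) : TM := kxq1_t (t62 b) (t26 b)
noncomputable def v108 (x1 x2 : ℝ) : ℝ := kxq1_v (v62 x1 x2) (v26 x1 x2)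
theorem h108 (h : In b E x1 x2) : Enc S E (t108 b) (v108 x1 x2) := kxq1_enc (h62 h) (h26 h)

def t109 (b : Bx) : TM := tadd (t62 b) (t64 b)
noncomputable def v109 (x1 x2 : ℝ) : ℝ := v62 x1 x2 + v64 x1 x2
theorem h109 (h : In b E x1 x2) : Enc S E (t109 b) (v109 x1 x2) := enc_add (h62 h) (h64 h)

def t110 (b : Bx) : TM := f2m_t (t26 b)
noncomputable def v110 (x1 x2 : ℝ) : ℝ := f2m_v (v26 x1 x2)
theorem h110 (h : In b E x1 x2) : Enc S E (t110 b) (v110 x1 x2) := f2m_enc (h26 h)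

def t111 (b : Bx) : TM := tsub (t110 b) (t62 b)
noncomputable def v111 (x1 x2 : ℝ) : ℝ := v110 x1 x2 - v62 x1 x2
theorem h111 (h : In b E x1 x2) : Enc S E (t111 b) (v111 x1 x2) := enc_sub (h110 h) (h62 h)

def t112 (b : Bx) : TM := tsub (t62 b) (t64 b)
noncomputable def v112 (x1 x2 : ℝ) : ℝ := v62 x1 x2 - v64 x1 x2
theorem h112 (h : In b E x1 x2) : Enc S E (t112 b) (v112 x1 x2) := enc_sub (h62 h) (h64 h)

def t113 (b : Bx) : TM := tmul S (t112 b) (t108 b)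
noncomputable def v113 (x1 x2 : ℝ) : ℝ := v112 x1 x2 * v108 x1 x2
theorem h113 (h : In b E x1 x2) : Enc S E (t113 b) (v113 x1 x2) := enc_mul hS (h112 h) (h108 h)

def t114 (b : Bx) : TM := tadd (t75 b) (t113 b)
noncomputable def v114 (x1 x2 : ℝ) : ℝ := v75 x1 x2 + v113 x1 x2
theorem h114 (h : In b E x1 x2) : Enc S E (t114 b) (v114 x1 x2) := enc_add (h75 h) (h113 h)

def t117 (b : Bx) : TM := tmul S (t60 b) (t108 b)
noncomputable def v117 (x1 x2 : ℝ) : ℝ := v60 x1 x2 * v108 x1 x2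
theorem h117 (h : In b E x1 x2) : Enc S E (t117 b) (v117 x1 x2) := enc_mul hS (h60 h) (h108 h)

def t118 (b : Bx) : TM := tinv S (t109 b)
noncomputable def v118 (x1 x2 : ℝ) : ℝ := (v109 x1 x2)⁻¹
theorem h118 (h : In b E x1 x2) : Enc S E (t118 b) (v118 x1 x2) := enc_inv hS (h109 h)

def t119 (b : Bx) : TM := tmul S (t117 b) (t118 b)
noncomputable def v119 (x1 x2 : ℝ) : ℝ := v117 x1 x2 * v118 x1 x2
theorem h119 (h : In b E x1 x2) : Enc S E (t119 b) (v119 x1 x2) := enc_mul hS (h117 h) (h118 h)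

def t120 (b : Bx) : TM := tadd (t107 b) (t119 b)
noncomputable def v120 (x1 x2 : ℝ) : ℝ := v107 x1 x2 + v119 x1 x2
theorem h120 (h : In b E x1 x2) : Enc S E (t120 b) (v120 x1 x2) := enc_add (h107 h) (h119 h)

def t122 (b : Bx) : TM := tmul S (t7 b) (t24 b)
noncomputable def v122 (x1 x2 : ℝ) : ℝ := v7 x1 x2 * v24 x1 x2
theorem h122 (h : In b E x1 x2) : Enc S E (t122 b) (v122 x1 x2) := enc_mul hS (h7 h) (h24 h)

def t123 (b : Bx) : TM := tmul S (t1 b) (t0 b)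
noncomputable def v123 (x1 x2 : ℝ) : ℝ := v1 x1 x2 * v0 x1 x2
theorem h123 (h : In b E x1 x2) : Enc S E (t123 b) (v123 x1 x2) := enc_mul hS (h1 h) (h0 h)

def t124 (b : Bx) : TM := tsub (t122 b) (t123 b)
noncomputable def v124 (x1 x2 : ℝ) : ℝ := v122 x1 x2 - v123 x1 x2
theorem h124 (h : In b E x1 x2) : Enc S E (t124 b) (v124 x1 x2) := enc_sub (h122 h) (h123 h)

def t125 (b : Bx) : TM := tinv S (t2 b)
noncomputable def v125 (x1 x2 : ℝ) : ℝ := (v2 x1 x2)⁻¹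
theorem h125 (h : In b E x1 x2) : Enc S E (t125 b) (v125 x1 x2) := enc_inv hS (h2 h)

def t126 (b : Bx) : TM := tmul S (t124 b) (t125 b)
noncomputable def v126 (x1 x2 : ℝ) : ℝ := v124 x1 x2 * v125 x1 x2
theorem h126 (h : In b E x1 x2) : Enc S E (t126 b) (v126 x1 x2) := enc_mul hS (h124 h) (h125 h)

def t127 (b : Bx) : TM := tsub (t126 b) (t9 b)
noncomputable def v127 (x1 x2 : ℝ) : ℝ := v126 x1 x2 - v9 x1 x2
theorem h127 (h : In b E x1 x2) : Enc S E (t127 b) (v127 x1 x2) := enc_sub (h126 h) (h9 h)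

def t129 (b : Bx) : TM := tmul S (t7 b) (t54 b)
noncomputable def v129 (x1 x2 : ℝ) : ℝ := v7 x1 x2 * v54 x1 x2
theorem h129 (h : In b E x1 x2) : Enc S E (t129 b) (v129 x1 x2) := enc_mul hS (h7 h) (h54 h)

def t133 (b : Bx) : TM := tadd (t129 b) (t0 b)
noncomputable def v133 (x1 x2 : ℝ) : ℝ := v129 x1 x2 + v0 x1 x2
theorem h133 (h : In b E x1 x2) : Enc S E (t133 b) (v133 x1 x2) := enc_add (h129 h) (h0 h)

def t135 (b : Bx) : TM := tmul S (t133 b) (t125 b)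
noncomputable def v135 (x1 x2 : ℝ) : ℝ := v133 x1 x2 * v125 x1 x2
theorem h135 (h : In b E x1 x2) : Enc S E (t135 b) (v135 x1 x2) := enc_mul hS (h133 h) (h125 h)

def t137 (b : Bx) : TM := tsub (t0 b) (t3 b)
noncomputable def v137 (x1 x2 : ℝ) : ℝ := v0 x1 x2 - v3 x1 x2
theorem h137 (h : In b E x1 x2) : Enc S E (t137 b) (v137 x1 x2) := enc_sub (h0 h) (h3 h)

def t138 (b : Bx) : TM := tsub (t26 b) (t3 b)
noncomputable def v138 (x1 x2 : ℝ) : ℝ := v26 x1 x2 - v3 x1 x2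
theorem h138 (h : In b E x1 x2) : Enc S E (t138 b) (v138 x1 x2) := enc_sub (h26 h) (h3 h)

def t139 (b : Bx) : TM := tsub (t24 b) (t3 b)
noncomputable def v139 (x1 x2 : ℝ) : ℝ := v24 x1 x2 - v3 x1 x2
theorem h139 (h : In b E x1 x2) : Enc S E (t139 b) (v139 x1 x2) := enc_sub (h24 h) (h3 h)

def t152 (b : Bx) : TM := tmul S (t137 b) (t120 b)
noncomputable def v152 (x1 x2 : ℝ) : ℝ := v137 x1 x2 * v120 x1 x2
theorem h152 (h : In b E x1 x2) : Enc S E (t152 b) (v152 x1 x2) := enc_mul hS (h137 h) (h120 h)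

def t153 (b : Bx) : TM := tneg (t152 b)
noncomputable def v153 (x1 x2 : ℝ) : ℝ := -(v152 x1 x2)
theorem h153 (h : In b E x1 x2) : Enc S E (t153 b) (v153 x1 x2) := enc_neg (h152 h)

def t154 (b : Bx) : TM := tmul S (t54 b) (t37 b)
noncomputable def v154 (x1 x2 : ℝ) : ℝ := v54 x1 x2 * v37 x1 x2
theorem h154 (h : In b E x1 x2) : Enc S E (t154 b) (v154 x1 x2) := enc_mul hS (h54 h) (h37 h)

def t155 (b : Bx) : TM := tsub (t153 b) (t154 b)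
noncomputable def v155 (x1 x2 : ℝ) : ℝ := v153 x1 x2 - v154 x1 x2
theorem h155 (h : In b E x1 x2) : Enc S E (t155 b) (v155 x1 x2) := enc_sub (h153 h) (h154 h)

def t156 (b : Bx) : TM := tsub (t20 b) (t3 b)
noncomputable def v156 (x1 x2 : ℝ) : ℝ := v20 x1 x2 - v3 x1 x2
theorem h156 (h : In b E x1 x2) : Enc S E (t156 b) (v156 x1 x2) := enc_sub (h20 h) (h3 h)

def t157 (b : Bx) : TM := tmul S (t54 b) (t114 b)
noncomputable def v157 (x1 x2 : ℝ) : ℝ := v54 x1 x2 * v114 x1 x2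
theorem h157 (h : In b E x1 x2) : Enc S E (t157 b) (v157 x1 x2) := enc_mul hS (h54 h) (h114 h)

def t158 (b : Bx) : TM := tneg (t157 b)
noncomputable def v158 (x1 x2 : ℝ) : ℝ := -(v157 x1 x2)
theorem h158 (h : In b E x1 x2) : Enc S E (t158 b) (v158 x1 x2) := enc_neg (h157 h)

def t159 (b : Bx) : TM := tmul S (t156 b) (t120 b)
noncomputable def v159 (x1 x2 : ℝ) : ℝ := v156 x1 x2 * v120 x1 x2
theorem h159 (h : In b E x1 x2) : Enc S E (t159 b) (v159 x1 x2) := enc_mul hS (h156 h) (h120 h)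

def t161 (b : Bx) : TM := tsub (t158 b) (t159 b)
noncomputable def v161 (x1 x2 : ℝ) : ℝ := v158 x1 x2 - v159 x1 x2
theorem h161 (h : In b E x1 x2) : Enc S E (t161 b) (v161 x1 x2) := enc_sub (h158 h) (h159 h)

def t162 (b : Bx) : TM := tmul S (t54 b) (t1 b)
noncomputable def v162 (x1 x2 : ℝ) : ℝ := v54 x1 x2 * v1 x1 x2
theorem h162 (h : In b E x1 x2) : Enc S E (t162 b) (v162 x1 x2) := enc_mul hS (h54 h) (h1 h)

def t163 (b : Bx) : TM := tsub (t161 b) (t162 b)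
noncomputable def v163 (x1 x2 : ℝ) : ℝ := v161 x1 x2 - v162 x1 x2
theorem h163 (h : In b E x1 x2) : Enc S E (t163 b) (v163 x1 x2) := enc_sub (h161 h) (h162 h)

def t164 (b : Bx) : TM := tsub (t3 b) (t55 b)
noncomputable def v164 (x1 x2 : ℝ) : ℝ := v3 x1 x2 - v55 x1 x2
theorem h164 (h : In b E x1 x2) : Enc S E (t164 b) (v164 x1 x2) := enc_sub (h3 h) (h55 h)

def t165 (b : Bx) : TM := tsub (t163 b) (t164 b)
noncomputable def v165 (x1 x2 : ℝ) : ℝ := v163 x1 x2 - v164 x1 x2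
theorem h165 (h : In b E x1 x2) : Enc S E (t165 b) (v165 x1 x2) := enc_sub (h163 h) (h164 h)

def t166 (b : Bx) : TM := tsub (t3 b) (t0 b)
noncomputable def v166 (x1 x2 : ℝ) : ℝ := v3 x1 x2 - v0 x1 x2
theorem h166 (h : In b E x1 x2) : Enc S E (t166 b) (v166 x1 x2) := enc_sub (h3 h) (h0 h)

def t167 (b : Bx) : TM := tsub (t166 b) (t154 b)
noncomputable def v167 (x1 x2 : ℝ) : ℝ := v166 x1 x2 - v154 x1 x2
theorem h167 (h : In b E x1 x2) : Enc S E (t167 b) (v167 x1 x2) := enc_sub (h166 h) (h154 h)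

def t168 (b : Bx) : TM := tsub (t3 b) (t26 b)
noncomputable def v168 (x1 x2 : ℝ) : ℝ := v3 x1 x2 - v26 x1 x2
theorem h168 (h : In b E x1 x2) : Enc S E (t168 b) (v168 x1 x2) := enc_sub (h3 h) (h26 h)

def t169 (b : Bx) : TM := qw_t (t139 b) (t168 b) (t166 b) (t135 b) (t165 b) (t155 b) (t167 b)
noncomputable def v169 (x1 x2 : ℝ) : ℝ := qw_v (v139 x1 x2) (v168 x1 x2) (v166 x1 x2) (v135 x1 x2) (v165 x1 x2) (v155 x1 x2) (v167 x1 x2)
theorem h169 (h : In b E x1 x2) : Enc S E (t169 b) (v169 x1 x2) := qw_enc (h139 h) (h168 h) (h166 h) (h135 h) (h165 h) (h155 h) (h167 h)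

def t170 (b : Bx) : TM := tscale 1 4 (t2 b)
noncomputable def v170 (x1 x2 : ℝ) : ℝ := ((1 : ℕ) : ℝ) / ((4 : ℕ) : ℝ) * v2 x1 x2
theorem h170 (h : In b E x1 x2) : Enc S E (t170 b) (v170 x1 x2) := enc_scale 1 (by norm_num) (h2 h)

def t172 (b : Bx) : TM := tsub (t170 b) (t0 b)
noncomputable def v172 (x1 x2 : ℝ) : ℝ := v170 x1 x2 - v0 x1 x2
theorem h172 (h : In b E x1 x2) : Enc S E (t172 b) (v172 x1 x2) := enc_sub (h170 h) (h0 h)

def t174 (b : Bx) : TM := tsub (t170 b) (t26 b)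
noncomputable def v174 (x1 x2 : ℝ) : ℝ := v170 x1 x2 - v26 x1 x2
theorem h174 (h : In b E x1 x2) : Enc S E (t174 b) (v174 x1 x2) := enc_sub (h170 h) (h26 h)

def t175 (b : Bx) : TM := tsub (t3 b) (t24 b)
noncomputable def v175 (x1 x2 : ℝ) : ℝ := v3 x1 x2 - v24 x1 x2
theorem h175 (h : In b E x1 x2) : Enc S E (t175 b) (v175 x1 x2) := enc_sub (h3 h) (h24 h)

def t176 (b : Bx) : TM := tscale 3 4 (t2 b)
noncomputable def v176 (x1 x2 : ℝ) : ℝ := ((3 : ℕ) : ℝ) / ((4 : ℕ) : ℝ) * v2 x1 x2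
theorem h176 (h : In b E x1 x2) : Enc S E (t176 b) (v176 x1 x2) := enc_scale 3 (by norm_num) (h2 h)

def t178 (b : Bx) : TM := tsub (t24 b) (t176 b)
noncomputable def v178 (x1 x2 : ℝ) : ℝ := v24 x1 x2 - v176 x1 x2
theorem h178 (h : In b E x1 x2) : Enc S E (t178 b) (v178 x1 x2) := enc_sub (h24 h) (h176 h)

def t179 (_b : Bx) : TM := tconst (Nat.div (Nat.mul 1 S) 16) 0 1
noncomputable def v179 (_x1 _x2 : ℝ) : ℝ := ((1 : ℕ) : ℝ) / ((16 : ℕ) : ℝ)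
theorem h179 (_h : In b E x1 x2) : Enc S E (t179 b) (v179 x1 x2) := enc_rat E 1 (by norm_num)

def t180 (b : Bx) : TM := tsub (t27 b) (t179 b)
noncomputable def v180 (x1 x2 : ℝ) : ℝ := v27 x1 x2 - v179 x1 x2
theorem h180 (h : In b E x1 x2) : Enc S E (t180 b) (v180 x1 x2) := enc_sub (h27 h) (h179 h)

def t181 (b : Bx) : TM := tsub (t21 b) (t179 b)
noncomputable def v181 (x1 x2 : ℝ) : ℝ := v21 x1 x2 - v179 x1 x2
theorem h181 (h : In b E x1 x2) : Enc S E (t181 b) (v181 x1 x2) := enc_sub (h21 h) (h179 h)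

def t182 (b : Bx) : TM := tsub (t0 b) (t24 b)
noncomputable def v182 (x1 x2 : ℝ) : ℝ := v0 x1 x2 - v24 x1 x2
theorem h182 (h : In b E x1 x2) : Enc S E (t182 b) (v182 x1 x2) := enc_sub (h0 h) (h24 h)

def t183 (b : Bx) : TM := tsub (t5 b) (t40 b)
noncomputable def v183 (x1 x2 : ℝ) : ℝ := v5 x1 x2 - v40 x1 x2
theorem h183 (h : In b E x1 x2) : Enc S E (t183 b) (v183 x1 x2) := enc_sub (h5 h) (h40 h)

def t184 (b : Bx) : TM := tadd (t127 b) (t9 b)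
noncomputable def v184 (x1 x2 : ℝ) : ℝ := v127 x1 x2 + v9 x1 x2
theorem h184 (h : In b E x1 x2) : Enc S E (t184 b) (v184 x1 x2) := enc_add (h127 h) (h9 h)

def t185 (b : Bx) : TM := tneg (t184 b)
noncomputable def v185 (x1 x2 : ℝ) : ℝ := -(v184 x1 x2)
theorem h185 (h : In b E x1 x2) : Enc S E (t185 b) (v185 x1 x2) := enc_neg (h184 h)

def g0 (b : Bx) : Bool := and (pos (t60 b)) (and (pos (t23 b)) (and (pos (t52 b)) (and (pos (t63 b)) (and (pos (t78 b)) (and (pos (t73 b)) (and (pos (t97 b)) (and (pos (t109 b)) (and (pos (t111 b)) (and (pos (t35 b)) (or (pos (t21 b)) (pos (t169 b))))))))))))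

def l0 (b : Bx) : Nat := cond (g0 b) 0 (pickb 1 (t169 b) b)

def P0 (x1 x2 : ℝ) : Prop := 0 < v60 x1 x2 ∧ 0 < v23 x1 x2 ∧ 0 < v52 x1 x2 ∧ 0 < v63 x1 x2 ∧ 0 < v78 x1 x2 ∧ 0 < v73 x1 x2 ∧ 0 < v97 x1 x2 ∧ 0 < v109 x1 x2 ∧ 0 < v111 x1 x2 ∧ 0 < v35 x1 x2 ∧ (0 < v21 x1 x2 ∨ 0 < v169 x1 x2)

theorem l0_sound (h : In b E x1 x2) (e : l0 b = 0) : P0 x1 x2 := by
  have e1 : g0 b = true := by
    rcases e2 : g0 b with _ | _
    · unfold l0 at e; rw [e2, cond_false] at e; exact absurd e (pickb_ne _ _ _)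
    · rfl
  exact ⟨pos_sound hS (h60 h) (Bool.and_eq_true_iff.mp e1).1, ⟨pos_sound hS (h23 h) (Bool.and_eq_true_iff.mp (Bool.and_eq_true_iff.mp e1).2).1, ⟨pos_sound hS (h52 h) (Bool.and_eq_true_iff.mp (Bool.and_eq_true_iff.mp (Bool.and_eq_true_iff.mp e1).2).2).1, ⟨pos_sound hS (h63 h) (Bool.and_eq_true_iff.mp (Bool.and_eq_true_iff.mp (Bool.and_eq_true_iff.mp (Bool.and_eq_true_iff.mp e1).2).2).2).1, ⟨pos_sound hS (h78 h) (Bool.and_eq_true_iff.mp (Bool.and_eq_true_iff.mp (Bool.and_eq_true_iff.mp (Bool.and_eq_true_iff.mp (Bool.and_eq_true_iff.mp e1).2).2).2).2).1, ⟨pos_sound hS (h73 h) (Bool.and_eq_true_iff.mp (Bool.and_eq_true_iff.mp (Bool.and_eq_true_iff.mp (Bool.and_eq_true_iff.mp (Bool.and_eq_true_iff.mp (Bool.and_eq_true_iff.mp e1).2).2).2).2).2).1, ⟨pos_sound hS (h97 h) (Bool.and_eq_true_iff.mp (Bool.and_eq_true_iff.mp (Bool.and_eq_true_iff.mp (Bool.and_eq_true_iff.mp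 (Bool.and_eq_true_iff.mp (Bool.and_eq_true_iff.mp (Bool.and_eq_true_iff.mp e1).2).2).2).2).2).2).1, ⟨pos_sound hS (h109 h) (Bool.and_eq_true_iff.mp (Bool.and_eq_true_iff.mp (Bool.and_eq_true_iff.mp (Bool.and_eq_true_iff.mp (Bool.and_eq_true_iff.mp (Bool.and_eq_true_iff.mp (Bool.and_eq_true_iff.mp (Bool.and_eq_true_iff.mp e1).2).2).2).2).2).2).2).1, ⟨pos_sound hS (h111 h) (Bool.and_eq_true_iff.mp (Bool.and_eq_true_iff.mp (Bool.and_eq_true_iff.mp (Bool.and_eq_true_iff.mp (Bool.and_eq_true_iff.mp (Bool.and_eq_true_iff.mp (Bool.and_eq_true_iff.mp (Bool.and_eq_true_iff.mp (Bool.and_eq_true_iff.mp e1).2).2).2).2).2).2).2).2).1, ⟨pos_sound hS (h35 h) (Bool.and_eq_true_iff.mp (Bool.and_eq_true_iff.mp (Bool.and_eq_true_iff.mp (Bool.and_eq_true_iff.mp (Bool.and_eq_true_iff.mp (Bool.and_eq_true_iff.mp (Bool.and_eq_true_iff.mp (Bool.and_eq_true_iff.mp (Bool.and_eq_true_iff.mp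 (Bool.and_eq_true_iff.mp e1).2).2).2).2).2).2).2).2).2).1, ((Bool.or_eq_true_iff.mp (Bool.and_eq_true_iff.mp (Bool.and_eq_true_iff.mp (Bool.and_eq_true_iff.mp (Bool.and_eq_true_iff.mp (Bool.and_eq_true_iff.mp (Bool.and_eq_true_iff.mp (Bool.and_eq_true_iff.mp (Bool.and_eq_true_iff.mp (Bool.and_eq_true_iff.mp (Bool.and_eq_true_iff.mp e1).2).2).2).2).2).2).2).2).2).2).imp (fun a => pos_sound hS (h21 h) a) (fun a => pos_sound hS (h169 h) a))⟩⟩⟩⟩⟩⟩⟩⟩⟩⟩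

def g1 (b : Bx) : Bool := or (pos (t172 b)) (or (pos (t137 b)) (or (pos (t174 b)) (or (pos (t138 b)) (or (pos (t175 b)) (or (pos (t178 b)) (or (pos (t180 b)) (or (pos (t181 b)) (or (pos (t182 b)) (or (pos (t183 b)) (pos (t185 b)))))))))))

def l1 (b : Bx) : Nat := cond (g1 b) 0 (l0 b)

def P1 (x1 x2 : ℝ) : Prop := (0 < v172 x1 x2 ∨ 0 < v137 x1 x2 ∨ 0 < v174 x1 x2 ∨ 0 < v138 x1 x2 ∨ 0 < v175 x1 x2 ∨ 0 < v178 x1 x2 ∨ 0 < v180 x1 x2 ∨ 0 < v181 x1 x2 ∨ 0 < v182 x1 x2 ∨ 0 < v183 x1 x2 ∨ 0 < v185 x1 x2) ∨ (P0 x1 x2)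

theorem l1_sound (h : In b E x1 x2) (e : l1 b = 0) : P1 x1 x2 := by
  unfold l1 at e
  rcases e1 : g1 b with _ | _
  · rw [e1, cond_false] at e
    have z0 : l0 b = 0 := e
    exact Or.inr (l0_sound h z0)
  · exact Or.inl (((Bool.or_eq_true_iff.mp e1).imp (fun a => pos_sound hS (h172 h) a) (fun a => ((Bool.or_eq_true_iff.mp a).imp (fun a => pos_sound hS (h137 h) a) (fun a => ((Bool.or_eq_true_iff.mp a).imp (fun a => pos_sound hS (h174 h) a) (fun a => ((Bool.or_eq_true_iff.mp a).imp (fun a => pos_sound hS (h138 h) a) (fun a => ((Bool.or_eq_true_iff.mp a).imp (fun a => pos_sound hS (h175 h) a) (fun a => ((Bool.or_eq_true_iff.mp a).imp (fun a => pos_sound hS (h178 h) a) (fun a => ((Bool.or_eq_true_iff.mp a).imp (fun a => pos_sound hS (h180 h) a) (fun a => ((Bool.or_eq_true_iff.mp a).imp (fun a => pos_sound hS (h181 h) a) (fun a => ((Bool.or_eq_true_iff.mp a).imp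 (fun a => pos_sound hS (h182 h) a) (fun a => ((Bool.or_eq_true_iff.mp a).imp (fun a => pos_sound hS (h183 h) a) (fun a => pos_sound hS (h185 h) a)))))))))))))))))))))

def f (b : Bx) : Nat := l1 b

/-- the statement -/
def Q (x1 x2 : ℝ) : Prop := P1 x1 x2

theorem f_sound (b : Bx) (hb : f b = 0) (x1 x2 : ℝ) (hm : Mem S b x1 x2) : Q x1 x2 := by
  obtain ⟨E, h⟩ := pt_of_mem hm
  have h : In b E x1 x2 := h
  unfold f at hb
  have e := hb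
  have z1 : l1 b = 0 := e
  exact (l1_sound h z1)

/-- the box -/
def b0 : Bx := ⟨697415773, 0, 232471926, 268435456, 0, 268435457⟩

theorem chk_all {n : ℕ} {b : Bx} (h : chk f n b = true) (x1 x2 : ℝ) (hm : Mem S b x1 x2) : Q x1 x2 :=
  chk_sound (fun b hb x1 x2 hm => f_sound b hb x1 x2 hm) n b h x1 x2 hm


end Pool.Agent.Strip051.LB.ChB00U_pp_112
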