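import Pool.Agent.Strip051.LB.ChB00U_pp_112.Defs
import Pool.Agent.Strip051.LB.Slope
import Pool.Agent.Strip051.LB.Star
import Pool.Agent.Strip051.LB.Cf

/-! # LINE tight chart ChB00U_pp_112: slopes -/

namespace Pool.Agent.Strip051.LB.ChB00U_pp_112

open Pool.Agent.Strip051.LB Pool.Agent.Strip051.LB.Fn Pool.Agent.Strip051.LB.Fc Pool.Agent.StripNear

set_option maxRecDepth 100000
set_option linter.all false

noncomputable def v41 (x1 x2 : ℝ) : ℝ := v40 x1 x2 - v5 x1 x2

noncomputable def v42 (x1 x2 : ℝ) : ℝ := -(v5 x1 x2)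

noncomputable def v45 (x1 x2 : ℝ) : ℝ := (v44 x1 x2) ^ 2

noncomputable def v47 (x1 x2 : ℝ) : ℝ := -(v46 x1 x2)

noncomputable def v48 (x1 x2 : ℝ) : ℝ := (v19 x1 x2) ^ 2

noncomputable def v50 (x1 x2 : ℝ) : ℝ := -(v49 x1 x2)

noncomputable def v51 (x1 x2 : ℝ) : ℝ := v5 x1 x2 - v48 x1 x2

noncomputable def v56 (x1 x2 : ℝ) : ℝ := (v55 x1 x2) ^ 2

noncomputable def v59 (x1 x2 : ℝ) : ℝ := v45 x1 x2 + v56 x1 x2

noncomputable def v61 (x1 x2 : ℝ) : ℝ := v59 x1 x2 - v5 x1 x2

noncomputable def v76 (x1 x2 : ℝ) : ℝ := v5 x1 x2 - v56 x1 x2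

noncomputable def v77 (x1 x2 : ℝ) : ℝ := -(v58 x1 x2)

noncomputable def v81 (x1 x2 : ℝ) : ℝ := -(v80 x1 x2)

noncomputable def v84 (x1 x2 : ℝ) : ℝ := -(v83 x1 x2)

noncomputable def v102 (x1 x2 : ℝ) : ℝ := -(v101 x1 x2)

noncomputable def v103 (x1 x2 : ℝ) : ℝ := v90 x1 x2 * v99 x1 x2

noncomputable def v115 (x1 x2 : ℝ) : ℝ := -(v114 x1 x2)

noncomputable def v116 (x1 x2 : ℝ) : ℝ := -(v103 x1 x2)

noncomputable def v121 (x1 x2 : ℝ) : ℝ := -(v120 x1 x2)

noncomputable def v128 (x1 x2 : ℝ) : ℝ := v7 x1 x2 * v20 x1 x2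

noncomputable def v130 (x1 x2 : ℝ) : ℝ := v19 x1 x2 * v0 x1 x2

noncomputable def v131 (x1 x2 : ℝ) : ℝ := -(v0 x1 x2)

noncomputable def v132 (x1 x2 : ℝ) : ℝ := v128 x1 x2 - v130 x1 x2

noncomputable def v134 (x1 x2 : ℝ) : ℝ := v132 x1 x2 * v125 x1 x2

noncomputable def v136 (x1 x2 : ℝ) : ℝ := v134 x1 x2 - v9 x1 x2

noncomputable def v151 (x1 x2 : ℝ) : ℝ := v55 x1 x2 - v3 x1 x2

structure Cx (x1 x2 : ℝ) : Prop where
  hc : v7 x1 x2 ^ 2 + x1 ^ 2 = 1
  p23 : 0 < v23 x1 x2
  p52 : 0 < v52 x1 x2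
  p63 : 0 < v63 x1 x2
  p78 : 0 < v78 x1 x2
  p73 : 0 < v73 x1 x2
  p97 : 0 < v97 x1 x2
  p109 : 0 < v109 x1 x2
  p111 : 0 < v111 x1 x2
  p35 : 0 < v35 x1 x2

variable {x1 x2 : ℝ}

theorem s3q (x1 x2 : ℝ) : v2 x1 x2 ^ 2 = 3 := by
  rw [v2]; exact s3sq

theorem s3ne (x1 x2 : ℝ) : v2 x1 x2 ≠ 0 := by
  rw [v2]; positivity

theorem s1 (c : Cx x1 x2) : v1 x1 x2 = v19 x1 x2 + v27 x1 x2 * v42 x1 x2 := by
  simp only [v1, v5, v11, v19, v27, v42]
  (try push_cast)
  first | ring | grind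

theorem s22 (c : Cx x1 x2) : v22 x1 x2 = v48 x1 x2 + v27 x1 x2 * v50 x1 x2 := by
  have a0 : (v1 x1 x2 + v19 x1 x2) * v1 x1 x2 = (v1 x1 x2 + v19 x1 x2) * (v19 x1 x2 + v27 x1 x2 * v42 x1 x2) := congrArg (fun z => (v1 x1 x2 + v19 x1 x2) * z) (s1 c)
  try simp only [v1, v5, v11, v19, v22, v27, v42, v48, v49, v50] at a0
  simp only [v1, v5, v11, v19, v22, v27, v42, v48, v49, v50]
  (try push_cast at a0 ⊢)
  first | linear_combination a0 | ring | grind

theorem s23 (c : Cx x1 x2) : v23 x1 x2 = v51 x1 x2 + v27 x1 x2 * v49 x1 x2 := by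
  have a1 := s22 c
  try simp only [v1, v5, v11, v19, v23, v27, v49, v50, v51] at a1
  simp only [v1, v5, v11, v19, v23, v27, v49, v50, v51]
  (try push_cast at a1 ⊢)
  first | linear_combination -a1 | ring | grind

theorem q24 (c : Cx x1 x2) : v51 x1 x2 = v20 x1 x2 ^ 2 := by
  have hc := c.hc
  have h3 := s3q x1 x2
  simp only [v0, v3, v5, v11, v13, v15, v17, v19, v20, v48, v51] at hc ⊢
  push_cast at hc ⊢
  grind

theorem s24 (c : Cx x1 x2) : v24 x1 x2 = v20 x1 x2 + v27 x1 x2 * v54 x1 x2 := by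
  have a0 := s23 c
  have e : 0 < Real.sqrt (v23 x1 x2) + v20 x1 x2 := by
    have e := c.p52
    simp only [v0, v5, v15, v20, v23, v24, v52] at e ⊢
    push_cast at e ⊢
    linarith
  have b := sl_sqrt a0 (q24 c) (le_of_lt c.p23) e
  clear a0
  try simp only [v0, v1, v5, v11, v15, v19, v20, v23, v24, v27, v49, v51, v52, v53, v54] at b
  simp only [v0, v1, v5, v11, v15, v19, v20, v23, v24, v27, v49, v51, v52, v53, v54]
  (try push_cast at b ⊢)
  first | linear_combination b | ring | grind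

theorem s25 (c : Cx x1 x2) : v25 x1 x2 = v44 x1 x2 + v27 x1 x2 * v42 x1 x2 := by
  have a0 := s1 c
  try simp only [v1, v5, v11, v19, v25, v27, v42, v44] at a0
  simp only [v1, v5, v11, v19, v25, v27, v42, v44]
  (try push_cast at a0 ⊢)
  first | linear_combination a0 | ring | grind

theorem s26 (c : Cx x1 x2) : v26 x1 x2 = v55 x1 x2 + v27 x1 x2 * v54 x1 x2 := by
  have a0 := s24 c
  try simp only [v0, v1, v11, v15, v19, v20, v26, v27, v55] at a0
  simp only [v0, v1, v11, v15, v19, v20, v26, v27, v55]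
  (try push_cast at a0 ⊢)
  first | linear_combination a0 | ring | grind

theorem s38 (c : Cx x1 x2) : v38 x1 x2 = v45 x1 x2 + v27 x1 x2 * v47 x1 x2 := by
  have a0 : (v25 x1 x2 + v44 x1 x2) * v25 x1 x2 = (v25 x1 x2 + v44 x1 x2) * (v44 x1 x2 + v27 x1 x2 * v42 x1 x2) := congrArg (fun z => (v25 x1 x2 + v44 x1 x2) * z) (s25 c)
  try simp only [v1, v5, v11, v19, v25, v27, v38, v42, v44, v45, v46, v47] at a0
  simp only [v1, v5, v11, v19, v25, v27, v38, v42, v44, v45, v46, v47]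
  (try push_cast at a0 ⊢)
  first | linear_combination a0 | ring | grind

theorem s39 (c : Cx x1 x2) : v39 x1 x2 = v56 x1 x2 + v27 x1 x2 * v58 x1 x2 := by
  have a0 : (v26 x1 x2 + v55 x1 x2) * v26 x1 x2 = (v26 x1 x2 + v55 x1 x2) * (v55 x1 x2 + v27 x1 x2 * v54 x1 x2) := congrArg (fun z => (v26 x1 x2 + v55 x1 x2) * z) (s26 c)
  try simp only [v0, v1, v11, v15, v19, v20, v26, v27, v39, v55, v56, v57, v58] at a0
  simp only [v0, v1, v11, v15, v19, v20, v26, v27, v39, v55, v56, v57, v58]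
  (try push_cast at a0 ⊢)
  first | linear_combination a0 | ring | grind

theorem s40 (c : Cx x1 x2) : v40 x1 x2 = v59 x1 x2 + v27 x1 x2 * v60 x1 x2 := by
  have a0 := s38 c
  have a1 := s39 c
  try simp only [v1, v11, v19, v25, v27, v40, v44, v46, v47, v59, v60] at a0
  try simp only [v1, v11, v19, v25, v27, v40, v44, v46, v47, v59, v60] at a1
  simp only [v1, v11, v19, v25, v27, v40, v44, v46, v47, v59, v60]
  (try push_cast at a0 a1 ⊢)
  first | linear_combination a0 + a1 | ring | grind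

theorem s41 (c : Cx x1 x2) : v41 x1 x2 = v61 x1 x2 + v27 x1 x2 * v60 x1 x2 := by
  have a0 := s40 c
  try simp only [v1, v5, v11, v19, v25, v27, v40, v41, v44, v46, v59, v60, v61] at a0
  simp only [v1, v5, v11, v19, v25, v27, v40, v41, v44, v46, v59, v60, v61]
  (try push_cast at a0 ⊢)
  first | linear_combination a0 | ring | grind

theorem s63 (c : Cx x1 x2) : v63 x1 x2 = v76 x1 x2 + v27 x1 x2 * v77 x1 x2 := by
  have a1 := s39 c
  try simp only [v1, v5, v11, v19, v27, v63, v76, v77] at a1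
  simp only [v1, v5, v11, v19, v27, v63, v76, v77]
  (try push_cast at a1 ⊢)
  first | linear_combination -a1 | ring | grind

theorem q64 (c : Cx x1 x2) : v76 x1 x2 = v65 x1 x2 ^ 2 := by
  have hc := c.hc
  have h3 := s3q x1 x2
  simp only [v0, v3, v5, v11, v13, v15, v17, v20, v55, v56, v65, v76] at hc ⊢
  push_cast at hc ⊢
  grind

theorem s64 (c : Cx x1 x2) : v64 x1 x2 = v65 x1 x2 + v27 x1 x2 * v81 x1 x2 := by
  have a0 := s63 c
  have e : 0 < Real.sqrt (v63 x1 x2) + v65 x1 x2 := by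
    have e := c.p78
    simp only [v5, v11, v63, v64, v65, v78] at e ⊢
    push_cast at e ⊢
    linarith
  have b := sl_sqrt a0 (q64 c) (le_of_lt c.p63) e
  clear a0
  try simp only [v1, v5, v11, v19, v27, v63, v64, v65, v76, v77, v78, v79, v80, v81] at b
  simp only [v1, v5, v11, v19, v27, v63, v64, v65, v76, v77, v78, v79, v80, v81]
  (try push_cast at b ⊢)
  first | linear_combination b | ring | grind

theorem s66 (c : Cx x1 x2) : v66 x1 x2 = v82 x1 x2 + v27 x1 x2 * v84 x1 x2 := by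
  have a0 := s64 c
  try simp only [v1, v11, v19, v27, v65, v66, v81, v82, v83, v84] at a0
  simp only [v1, v11, v19, v27, v65, v66, v81, v82, v83, v84]
  (try push_cast at a0 ⊢)
  first | linear_combination (2 : ℝ) * a0 | ring | grind

theorem s67 (c : Cx x1 x2) : v67 x1 x2 = v85 x1 x2 + v27 x1 x2 * v84 x1 x2 := by
  have a1 := s66 c
  try simp only [v1, v5, v11, v19, v27, v65, v66, v67, v82, v83, v84, v85] at a1
  simp only [v1, v5, v11, v19, v27, v65, v66, v67, v82, v83, v84, v85]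
  (try push_cast at a1 ⊢)
  first | linear_combination a1 | ring | grind

theorem s68 (c : Cx x1 x2) : v68 x1 x2 = v86 x1 x2 + v27 x1 x2 * v87 x1 x2 := by
  have a1 : (v2 x1 x2) * v26 x1 x2 = (v2 x1 x2) * (v55 x1 x2 + v27 x1 x2 * v54 x1 x2) := congrArg (fun z => (v2 x1 x2) * z) (s26 c)
  try simp only [v0, v1, v2, v11, v15, v19, v20, v26, v27, v55, v68, v86, v87] at a1
  simp only [v0, v1, v2, v11, v15, v19, v20, v26, v27, v55, v68, v86, v87]
  (try push_cast at a1 ⊢)
  first | linear_combination a1 | ring | grind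

theorem s69 (c : Cx x1 x2) : v69 x1 x2 = v88 x1 x2 + v27 x1 x2 * v89 x1 x2 := by
  have a0 := s68 c
  have a1 := s64 c
  try simp only [v1, v11, v19, v27, v65, v69, v81, v88, v89] at a0
  try simp only [v1, v11, v19, v27, v65, v69, v81, v88, v89] at a1
  simp only [v1, v11, v19, v27, v65, v69, v81, v88, v89]
  (try push_cast at a0 a1 ⊢)
  first | linear_combination a0 - a1 | ring | grind

theorem s70 (c : Cx x1 x2) : v70 x1 x2 = v90 x1 x2 + v27 x1 x2 * v94 x1 x2 := by
  have a0 : (v69 x1 x2) * v67 x1 x2 = (v69 x1 x2) * (v85 x1 x2 + v27 x1 x2 * v84 x1 x2) := congrArg (fun z => (v69 x1 x2) * z) (s67 c)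
  have a1 : (v85 x1 x2) * v69 x1 x2 = (v85 x1 x2) * (v88 x1 x2 + v27 x1 x2 * v89 x1 x2) := congrArg (fun z => (v85 x1 x2) * z) (s69 c)
  try simp only [v1, v5, v11, v19, v27, v65, v66, v67, v69, v70, v82, v83, v84, v85, v88, v89, v90, v91, v93, v94] at a0
  try simp only [v1, v5, v11, v19, v27, v65, v66, v67, v69, v70, v82, v83, v84, v85, v88, v89, v90, v91, v93, v94] at a1
  simp only [v1, v5, v11, v19, v27, v65, v66, v67, v69, v70, v82, v83, v84, v85, v88, v89, v90, v91, v93, v94]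
  (try push_cast at a0 a1 ⊢)
  first | linear_combination a0 + a1 | ring | grind

theorem s71 (c : Cx x1 x2) : v71 x1 x2 = v95 x1 x2 + v27 x1 x2 * v87 x1 x2 := by
  have a1 := s68 c
  try simp only [v1, v5, v11, v19, v27, v71, v95] at a1
  simp only [v1, v5, v11, v19, v27, v71, v95]
  (try push_cast at a1 ⊢)
  first | linear_combination a1 | ring | grind

theorem s72 (c : Cx x1 x2) : v72 x1 x2 = v96 x1 x2 + v27 x1 x2 * v89 x1 x2 := by
  have a0 := s71 c
  have a1 := s64 c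
  try simp only [v1, v5, v11, v19, v27, v65, v71, v72, v81, v89, v95, v96] at a0
  try simp only [v1, v5, v11, v19, v27, v65, v71, v72, v81, v89, v95, v96] at a1
  simp only [v1, v5, v11, v19, v27, v65, v71, v72, v81, v89, v95, v96]
  (try push_cast at a0 a1 ⊢)
  first | linear_combination a0 - a1 | ring | grind

theorem s73 (c : Cx x1 x2) : v73 x1 x2 = v97 x1 x2 + v27 x1 x2 * v98 x1 x2 := by
  have a0 := s72 c
  try simp only [v1, v5, v11, v19, v27, v65, v71, v72, v73, v89, v95, v96, v97, v98] at a0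
  simp only [v1, v5, v11, v19, v27, v65, v71, v72, v73, v89, v95, v96, v97, v98]
  (try push_cast at a0 ⊢)
  first | linear_combination (2 : ℝ) * a0 | ring | grind

theorem s74 (c : Cx x1 x2) : v74 x1 x2 = v99 x1 x2 + v27 x1 x2 * v102 x1 x2 := by
  have a0 := s73 c
  have b := sl_inv a0 (c.p73).ne' (c.p97).ne'
  clear a0
  try simp only [v1, v5, v11, v19, v27, v65, v71, v72, v73, v74, v89, v95, v96, v97, v98, v99, v100, v101, v102] at b
  simp only [v1, v5, v11, v19, v27, v65, v71, v72, v73, v74, v89, v95, v96, v97, v98, v99, v100, v101, v102]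
  (try push_cast at b ⊢)
  first | linear_combination b | ring | grind

theorem s75 (c : Cx x1 x2) : v75 x1 x2 = v103 x1 x2 + v27 x1 x2 * v107 x1 x2 := by
  have a0 : (v74 x1 x2) * v70 x1 x2 = (v74 x1 x2) * (v90 x1 x2 + v27 x1 x2 * v94 x1 x2) := congrArg (fun z => (v74 x1 x2) * z) (s70 c)
  have a1 : (v90 x1 x2) * v74 x1 x2 = (v90 x1 x2) * (v99 x1 x2 + v27 x1 x2 * v102 x1 x2) := congrArg (fun z => (v90 x1 x2) * z) (s74 c)
  try simp only [v1, v11, v19, v27, v75, v94, v102, v103, v104, v105, v107] at a0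
  try simp only [v1, v11, v19, v27, v75, v94, v102, v103, v104, v105, v107] at a1
  simp only [v1, v11, v19, v27, v75, v94, v102, v103, v104, v105, v107]
  (try push_cast at a0 a1 ⊢)
  first | linear_combination a0 + a1 | ring | grind

theorem s122 (c : Cx x1 x2) : v122 x1 x2 = v128 x1 x2 + v27 x1 x2 * v129 x1 x2 := by
  have a1 : (v7 x1 x2) * v24 x1 x2 = (v7 x1 x2) * (v20 x1 x2 + v27 x1 x2 * v54 x1 x2) := congrArg (fun z => (v7 x1 x2) * z) (s24 c)
  try simp only [v0, v1, v11, v15, v19, v20, v27, v122, v128, v129] at a1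
  simp only [v0, v1, v11, v15, v19, v20, v27, v122, v128, v129]
  (try push_cast at a1 ⊢)
  first | linear_combination a1 | ring | grind

theorem s123 (c : Cx x1 x2) : v123 x1 x2 = v130 x1 x2 + v27 x1 x2 * v131 x1 x2 := by
  have a0 : (v0 x1 x2) * v1 x1 x2 = (v0 x1 x2) * (v19 x1 x2 + v27 x1 x2 * v42 x1 x2) := congrArg (fun z => (v0 x1 x2) * z) (s1 c)
  try simp only [v0, v1, v5, v11, v19, v27, v42, v123, v130, v131] at a0
  simp only [v0, v1, v5, v11, v19, v27, v42, v123, v130, v131]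
  (try push_cast at a0 ⊢)
  first | linear_combination a0 | ring | grind

theorem s124 (c : Cx x1 x2) : v124 x1 x2 = v132 x1 x2 + v27 x1 x2 * v133 x1 x2 := by
  have a0 := s122 c
  have a1 := s123 c
  try simp only [v0, v1, v11, v19, v27, v124, v131, v132, v133] at a0
  try simp only [v0, v1, v11, v19, v27, v124, v131, v132, v133] at a1
  simp only [v0, v1, v11, v19, v27, v124, v131, v132, v133]
  (try push_cast at a0 a1 ⊢)
  first | linear_combination a0 - a1 | ring | grind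

theorem s126 (c : Cx x1 x2) : v126 x1 x2 = v134 x1 x2 + v27 x1 x2 * v135 x1 x2 := by
  have a0 : (v125 x1 x2) * v124 x1 x2 = (v125 x1 x2) * (v132 x1 x2 + v27 x1 x2 * v133 x1 x2) := congrArg (fun z => (v125 x1 x2) * z) (s124 c)
  try simp only [v0, v1, v11, v19, v27, v124, v126, v132, v133, v134, v135] at a0
  simp only [v0, v1, v11, v19, v27, v124, v126, v132, v133, v134, v135]
  (try push_cast at a0 ⊢)
  first | linear_combination a0 | ring | grind

theorem s127 (c : Cx x1 x2) : v127 x1 x2 = v136 x1 x2 + v27 x1 x2 * v135 x1 x2 := by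
  have a0 := s126 c
  try simp only [v1, v9, v11, v19, v27, v127, v136] at a0
  simp only [v1, v9, v11, v19, v27, v127, v136]
  (try push_cast at a0 ⊢)
  first | linear_combination a0 | ring | grind

theorem s138 (c : Cx x1 x2) : v138 x1 x2 = v151 x1 x2 + v27 x1 x2 * v54 x1 x2 := by
  have a0 := s26 c
  try simp only [v0, v1, v2, v3, v11, v15, v19, v20, v26, v27, v55, v138, v151] at a0
  simp only [v0, v1, v2, v3, v11, v15, v19, v20, v26, v27, v55, v138, v151]
  (try push_cast at a0 ⊢)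
  first | linear_combination a0 | ring | grind

theorem s139 (c : Cx x1 x2) : v139 x1 x2 = v156 x1 x2 + v27 x1 x2 * v54 x1 x2 := by
  have a0 := s24 c
  try simp only [v0, v1, v2, v3, v11, v15, v19, v20, v27, v139, v156] at a0
  simp only [v0, v1, v2, v3, v11, v15, v19, v20, v27, v139, v156]
  (try push_cast at a0 ⊢)
  first | linear_combination a0 | ring | grind

theorem bD (c : Cx x1 x2) : v61 x1 x2 = 0 := by
  have hc := c.hc
  have h3 := s3q x1 x2
  simp only [v0, v3, v5, v11, v13, v15, v17, v19, v20, v44, v45, v55, v56, v59, v61] at hc ⊢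
  push_cast at hc ⊢
  grind

theorem sD (c : Cx x1 x2) : v41 x1 x2 = v27 x1 x2 * v60 x1 x2 := by
  have h := s41 c
  rw [bD c, zero_add] at h
  exact h

theorem s115 (c : Cx x1 x2) : v115 x1 x2 = v116 x1 x2 + v27 x1 x2 * v121 x1 x2 := by
  have hA := s75 c
  have hd := sD c
  have hs := c.p109
  have hc : v64 x1 x2 ^ 2 = v63 x1 x2 := by
    rw [v64]; exact Real.sq_sqrt (le_of_lt c.p63)
  have hx : v62 x1 x2 - v64 x1 x2 = v41 x1 x2 * (v109 x1 x2)⁻¹ := by
    have g : v62 x1 x2 ^ 2 - v64 x1 x2 ^ 2 = v41 x1 x2 := by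
      rw [hc]; simp only [v0, v1, v5, v25, v26, v38, v39, v40, v41, v62, v63, v109]; push_cast; ring
    have g3 : v109 x1 x2 = v62 x1 x2 + v64 x1 x2 := by
      simp only [v0, v1, v5, v25, v26, v38, v39, v40, v41, v62, v63, v109]; try push_cast
      try ring
    have g2 : 0 < v62 x1 x2 + v64 x1 x2 := by rw [← g3]; exact hs
    rw [g3]; exact diff_of_sq g g2
  have hy : v108 x1 x2 * (v62 x1 x2 - v64 x1 x2) = v108 x1 x2 * (v41 x1 x2 * (v109 x1 x2)⁻¹) := congrArg (fun z => v108 x1 x2 * z) hx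
  have hK : v108 x1 x2 * (v109 x1 x2)⁻¹ * v41 x1 x2 = v108 x1 x2 * (v109 x1 x2)⁻¹ * (v27 x1 x2 * v60 x1 x2) := congrArg (fun z => v108 x1 x2 * (v109 x1 x2)⁻¹ * z) hd
  try simp only [v1, v5, v11, v19, v25, v27, v40, v41, v44, v46, v60, v62, v107, v109, v112, v113, v114, v115, v116, v117, v118, v119, v120, v121] at hA
  try simp only [v1, v5, v11, v19, v25, v27, v40, v41, v44, v46, v60, v62, v107, v109, v112, v113, v114, v115, v116, v117, v118, v119, v120, v121] at hy
  try simp only [v1, v5, v11, v19, v25, v27, v40, v41, v44, v46, v60, v62, v107, v109, v112, v113, v114, v115, v116, v117, v118, v119, v120, v121] at hK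
  simp only [v1, v5, v11, v19, v25, v27, v40, v41, v44, v46, v60, v62, v107, v109, v112, v113, v114, v115, v116, v117, v118, v119, v120, v121]
  (try push_cast at hA hy hK ⊢)
  first | linear_combination -(hA + hy + hK) | grind

theorem bE (c : Cx x1 x2) : v136 x1 x2 = 0 := by
  have hc := c.hc
  have h3 := s3q x1 x2
  have g0 : v2 x1 x2 ≠ 0 := s3ne x1 x2
  simp only [v0, v3, v9, v11, v13, v15, v17, v19, v20, v125, v128, v130, v132, v134, v136] at hc ⊢
  push_cast at hc ⊢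
  grind

theorem hE (c : Cx x1 x2) : v127 x1 x2 = v27 x1 x2 * v135 x1 x2 := by
  have h := s127 c
  rw [bE c, zero_add] at h
  exact h

theorem bC12 (c : Cx x1 x2) : v137 x1 x2 * v116 x1 x2 - v151 x1 x2 * v37 x1 x2 = 0 := by
  have hc := c.hc
  have h3 := s3q x1 x2
  have g0 := (c.p35).ne'
  have g1 := (c.p97).ne'
  simp only [v0, v3, v5, v11, v13, v15, v17, v20, v28, v29, v30, v31, v32, v33, v34, v35, v36, v37, v55, v65, v82, v85, v86, v88, v90, v95, v96, v97, v99, v103, v116, v137, v151] at hc g0 g1 ⊢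
  push_cast at hc g0 g1 ⊢
  grind

theorem hC12 (c : Cx x1 x2) : v137 x1 x2 * v115 x1 x2 - v138 x1 x2 * v37 x1 x2 = v27 x1 x2 * v155 x1 x2 := by
  have a2 : v137 x1 x2 * v115 x1 x2 = v137 x1 x2 * (v116 x1 x2 + v27 x1 x2 * v121 x1 x2) := congrArg (fun z => v137 x1 x2 * z) (s115 c)
  have a3 : v37 x1 x2 * v138 x1 x2 = v37 x1 x2 * (v151 x1 x2 + v27 x1 x2 * v54 x1 x2) := congrArg (fun z => v37 x1 x2 * z) (s138 c)
  have b := bC12 c
  try simp only [v0, v1, v2, v3, v11, v15, v19, v20, v26, v27, v55, v107, v114, v115, v116, v120, v121, v137, v138, v151, v152, v153, v154, v155] at a2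
  try simp only [v0, v1, v2, v3, v11, v15, v19, v20, v26, v27, v55, v107, v114, v115, v116, v120, v121, v137, v138, v151, v152, v153, v154, v155] at a3
  try simp only [v0, v1, v2, v3, v11, v15, v19, v20, v26, v27, v55, v107, v114, v115, v116, v120, v121, v137, v138, v151, v152, v153, v154, v155] at b
  simp only [v0, v1, v2, v3, v11, v15, v19, v20, v26, v27, v55, v107, v114, v115, v116, v120, v121, v137, v138, v151, v152, v153, v154, v155]
  (try push_cast at a2 a3 b ⊢)
  first | linear_combination a2 - a3 + b | grind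

theorem bC32 (c : Cx x1 x2) : v156 x1 x2 * v116 x1 x2 - v151 x1 x2 * v19 x1 x2 = 0 := by
  have hc := c.hc
  have h3 := s3q x1 x2
  have g0 := (c.p97).ne'
  simp only [v0, v3, v5, v11, v13, v15, v17, v19, v20, v55, v65, v82, v85, v86, v88, v90, v95, v96, v97, v99, v103, v116, v151, v156] at hc g0 ⊢
  push_cast at hc g0 ⊢
  grind

theorem hC32 (c : Cx x1 x2) : v139 x1 x2 * v115 x1 x2 - v138 x1 x2 * v1 x1 x2 = v27 x1 x2 * v165 x1 x2 := by
  have a1 : v115 x1 x2 * v139 x1 x2 = v115 x1 x2 * (v156 x1 x2 + v27 x1 x2 * v54 x1 x2) := congrArg (fun z => v115 x1 x2 * z) (s139 c)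
  have a2 : v156 x1 x2 * v115 x1 x2 = v156 x1 x2 * (v116 x1 x2 + v27 x1 x2 * v121 x1 x2) := congrArg (fun z => v156 x1 x2 * z) (s115 c)
  have a3 : v1 x1 x2 * v138 x1 x2 = v1 x1 x2 * (v151 x1 x2 + v27 x1 x2 * v54 x1 x2) := congrArg (fun z => v1 x1 x2 * z) (s138 c)
  have a4 : v151 x1 x2 * v1 x1 x2 = v151 x1 x2 * (v19 x1 x2 + v27 x1 x2 * v42 x1 x2) := congrArg (fun z => v151 x1 x2 * z) (s1 c)
  have b := bC32 c
  try simp only [v0, v1, v2, v3, v5, v11, v15, v19, v20, v26, v27, v42, v55, v107, v114, v115, v116, v120, v121, v138, v139, v151, v156, v157, v158, v159, v161, v162, v163, v164, v165] at a1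
  try simp only [v0, v1, v2, v3, v5, v11, v15, v19, v20, v26, v27, v42, v55, v107, v114, v115, v116, v120, v121, v138, v139, v151, v156, v157, v158, v159, v161, v162, v163, v164, v165] at a2
  try simp only [v0, v1, v2, v3, v5, v11, v15, v19, v20, v26, v27, v42, v55, v107, v114, v115, v116, v120, v121, v138, v139, v151, v156, v157, v158, v159, v161, v162, v163, v164, v165] at a3
  try simp only [v0, v1, v2, v3, v5, v11, v15, v19, v20, v26, v27, v42, v55, v107, v114, v115, v116, v120, v121, v138, v139, v151, v156, v157, v158, v159, v161, v162, v163, v164, v165] at a4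
  try simp only [v0, v1, v2, v3, v5, v11, v15, v19, v20, v26, v27, v42, v55, v107, v114, v115, v116, v120, v121, v138, v139, v151, v156, v157, v158, v159, v161, v162, v163, v164, v165] at b
  simp only [v0, v1, v2, v3, v5, v11, v15, v19, v20, v26, v27, v42, v55, v107, v114, v115, v116, v120, v121, v138, v139, v151, v156, v157, v158, v159, v161, v162, v163, v164, v165]
  (try push_cast at a1 a2 a3 a4 b ⊢)
  first | linear_combination a1 + a2 - a3 - a4 + b | grind

theorem bC13 (c : Cx x1 x2) : v137 x1 x2 * v19 x1 x2 - v156 x1 x2 * v37 x1 x2 = 0 := by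
  have hc := c.hc
  have h3 := s3q x1 x2
  have g0 := (c.p35).ne'
  simp only [v0, v3, v5, v11, v13, v15, v17, v19, v20, v28, v29, v30, v31, v32, v33, v34, v35, v36, v37, v137, v156] at hc g0 ⊢
  push_cast at hc g0 ⊢
  grind

theorem hC13 (c : Cx x1 x2) : v137 x1 x2 * v1 x1 x2 - v139 x1 x2 * v37 x1 x2 = v27 x1 x2 * v167 x1 x2 := by
  have a2 : v137 x1 x2 * v1 x1 x2 = v137 x1 x2 * (v19 x1 x2 + v27 x1 x2 * v42 x1 x2) := congrArg (fun z => v137 x1 x2 * z) (s1 c)
  have a3 : v37 x1 x2 * v139 x1 x2 = v37 x1 x2 * (v156 x1 x2 + v27 x1 x2 * v54 x1 x2) := congrArg (fun z => v37 x1 x2 * z) (s139 c)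
  have b := bC13 c
  try simp only [v0, v1, v2, v3, v5, v11, v15, v19, v20, v27, v42, v137, v139, v154, v156, v166, v167] at a2
  try simp only [v0, v1, v2, v3, v5, v11, v15, v19, v20, v27, v42, v137, v139, v154, v156, v166, v167] at a3
  try simp only [v0, v1, v2, v3, v5, v11, v15, v19, v20, v27, v42, v137, v139, v154, v156, v166, v167] at b
  simp only [v0, v1, v2, v3, v5, v11, v15, v19, v20, v27, v42, v137, v139, v154, v156, v166, v167]
  (try push_cast at a2 a3 b ⊢)
  first | linear_combination a2 - a3 + b | grind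

theorem core (c : Cx x1 x2) (hW : 0 ≤ v27 x1 x2) (hWQ : 0 ≤ v27 x1 x2 * v169 x1 x2) :
    0 ≤ starw_v (v127 x1 x2) (v139 x1 x2) ((-v138 x1 x2)) ((-v137 x1 x2)) (v1 x1 x2) ((-v115 x1 x2)) ((-v37 x1 x2)) := by
  have e1 : (-v138 x1 x2) * v1 x1 x2 - v139 x1 x2 * (-v115 x1 x2) = v27 x1 x2 * v165 x1 x2 := by linear_combination hC32 c
  have e2 : (-v137 x1 x2) * (-v115 x1 x2) - (-v138 x1 x2) * (-v37 x1 x2) = v27 x1 x2 * v155 x1 x2 := by linear_combination hC12 c
  have e3 : v139 x1 x2 * (-v37 x1 x2) - (-v137 x1 x2) * v1 x1 x2 = v27 x1 x2 * v167 x1 x2 := by linear_combination hC13 c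
  have f1 : (-v138 x1 x2) = v168 x1 x2 := by
    simp only [v0, v2, v3, v26, v137, v138, v139, v168]
    try (push_cast; ring)
  have f2 : (-v137 x1 x2) = v166 x1 x2 := by
    simp only [v0, v2, v3, v26, v137, v138, v139, v166]
    try (push_cast; ring)
  rw [starw_eq hW (hE c) e1 e2 e3]
  rw [f1]
  rw [f2]
  exact hWQ

end Pool.Agent.Strip051.LB.ChB00U_pp_112
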